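import Mathlib

set_option autoImplicit false

namespace Pool.Agent.Results.MP_57cfa6_lc.ExcludedMiddle

open CategoryTheory Limits MonoidalCategory CartesianMonoidalCategory

/-- A many-sorted algebraic signature. -/
structure Sig where
  Srt : Type
  Fn : Type
  ar : Fn → ℕ
  dom : ∀ f, Fin (ar f) → Srt
  cod : Fn → Srt

/-- Variables of a context (de Bruijn indices). -/
inductive Var {S : Type} : List S → S → Type
  | zero {Γ : List S} {A : S} : Var (A :: Γ) A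
  | succ {Γ : List S} {A B : S} : Var Γ A → Var (B :: Γ) A

/-- Terms in context. -/
inductive Tm (σ : Sig) (Γ : List σ.Srt) : σ.Srt → Type
  | var {A : σ.Srt} : Var Γ A → Tm σ Γ A
  | app (f : σ.Fn) : (∀ i, Tm σ Γ (σ.dom f i)) → Tm σ Γ (σ.cod f)

/-- Formulas in context. -/
inductive Fm (σ : Sig) : List σ.Srt → Type
  | top {Γ : List σ.Srt} : Fm σ Γ
  | bot {Γ : List σ.Srt} : Fm σ Γ
  | eq {Γ : List σ.Srt} {A : σ.Srt} : Tm σ Γ A → Tm σ Γ A → Fm σ Γ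
  | and {Γ : List σ.Srt} : Fm σ Γ → Fm σ Γ → Fm σ Γ
  | or {Γ : List σ.Srt} : Fm σ Γ → Fm σ Γ → Fm σ Γ
  | imp {Γ : List σ.Srt} : Fm σ Γ → Fm σ Γ → Fm σ Γ
  | all {Γ : List σ.Srt} (A : σ.Srt) : Fm σ (A :: Γ) → Fm σ Γ
  | ex {Γ : List σ.Srt} (A : σ.Srt) : Fm σ (A :: Γ) → Fm σ Γ

variable {σ : Sig}

/-- Substitutions of terms in context `Γ` for the variables of `Δ`. -/
def Sub (σ : Sig) (Γ Δ : List σ.Srt) : Type := ∀ A, Var Δ A → Tm σ Γ A

def Tm.sub {Γ Δ : List σ.Srt} (ρ : Sub σ Γ Δ) : ∀ {A}, Tm σ Δ A → Tm σ Γ A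
  | _, .var v => ρ _ v
  | _, .app f ts => .app f fun i => (ts i).sub ρ

/-- Weakening by one new variable. -/
def wk {Γ : List σ.Srt} {B : σ.Srt} : Sub σ (B :: Γ) Γ := fun _ v => .var v.succ

/-- Extending a substitution under a binder. -/
def up {Γ Δ : List σ.Srt} {B : σ.Srt} (ρ : Sub σ Γ Δ) : Sub σ (B :: Γ) (B :: Δ)
  | _, .zero => .var .zero
  | _, .succ v => (ρ _ v).sub wk

/-- Substituting `t` for the last variable. -/
def inst {Γ : List σ.Srt} {B : σ.Srt} (t : Tm σ Γ B) : Sub σ Γ (B :: Γ)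
  | _, .zero => t
  | _, .succ v => .var v

def Fm.sub : ∀ {Δ Γ : List σ.Srt}, Fm σ Δ → Sub σ Γ Δ → Fm σ Γ
  | _, _, .top, _ => .top
  | _, _, .bot, _ => .bot
  | _, _, .eq s t, ρ => .eq (s.sub ρ) (t.sub ρ)
  | _, _, .and φ ψ, ρ => .and (φ.sub ρ) (ψ.sub ρ)
  | _, _, .or φ ψ, ρ => .or (φ.sub ρ) (ψ.sub ρ)
  | _, _, .imp φ ψ, ρ => .imp (φ.sub ρ) (ψ.sub ρ)
  | _, _, .all A φ, ρ => .all A (φ.sub (up ρ))
  | _, _, .ex A φ, ρ => .ex A (φ.sub (up ρ))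

/-- Intuitionistic natural deduction with equality, in context. -/
inductive Pf : ∀ {Γ : List σ.Srt}, List (Fm σ Γ) → Fm σ Γ → Prop
  | hyp {Γ Φ} {φ : Fm σ Γ} : φ ∈ Φ → Pf Φ φ
  | topI {Γ} {Φ : List (Fm σ Γ)} : Pf Φ .top
  | botE {Γ Φ} {φ : Fm σ Γ} : Pf Φ .bot → Pf Φ φ
  | andI {Γ Φ} {φ ψ : Fm σ Γ} : Pf Φ φ → Pf Φ ψ → Pf Φ (.and φ ψ)
  | andL {Γ Φ} {φ ψ : Fm σ Γ} : Pf Φ (.and φ ψ) → Pf Φ φ
  | andR {Γ Φ} {φ ψ : Fm σ Γ} : Pf Φ (.and φ ψ) → Pf Φ ψ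
  | orL {Γ Φ} {φ ψ : Fm σ Γ} : Pf Φ φ → Pf Φ (.or φ ψ)
  | orR {Γ Φ} {φ ψ : Fm σ Γ} : Pf Φ ψ → Pf Φ (.or φ ψ)
  | orE {Γ Φ} {φ ψ χ : Fm σ Γ} : Pf Φ (.or φ ψ) → Pf (φ :: Φ) χ → Pf (ψ :: Φ) χ → Pf Φ χ
  | impI {Γ Φ} {φ ψ : Fm σ Γ} : Pf (φ :: Φ) ψ → Pf Φ (.imp φ ψ)
  | impE {Γ Φ} {φ ψ : Fm σ Γ} : Pf Φ (.imp φ ψ) → Pf Φ φ → Pf Φ ψ
  | allI {Γ A} {Φ : List (Fm σ Γ)} {φ : Fm σ (A :: Γ)} :
      Pf (Φ.map (·.sub wk)) φ → Pf Φ (.all A φ)
  | allE {Γ A Φ} {φ : Fm σ (A :: Γ)} (t : Tm σ Γ A) : Pf Φ (.all A φ) → Pf Φ (φ.sub (inst t))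
  | exI {Γ A Φ} {φ : Fm σ (A :: Γ)} (t : Tm σ Γ A) : Pf Φ (φ.sub (inst t)) → Pf Φ (.ex A φ)
  | exE {Γ A Φ} {φ : Fm σ (A :: Γ)} {ψ : Fm σ Γ} :
      Pf Φ (.ex A φ) → Pf (φ :: Φ.map (·.sub wk)) (ψ.sub wk) → Pf Φ ψ
  | refl {Γ A} {Φ : List (Fm σ Γ)} (t : Tm σ Γ A) : Pf Φ (.eq t t)
  | subst {Γ A Φ} {φ : Fm σ (A :: Γ)} {s t : Tm σ Γ A} :
      Pf Φ (.eq s t) → Pf Φ (φ.sub (inst s)) → Pf Φ (φ.sub (inst t))

/-- Structures in Kan complexes. -/
structure Str (σ : Sig) where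
  obj : σ.Srt → SSet.{0}
  kan : ∀ A, SSet.KanComplex (obj A)
  fn : ∀ f, (∏ᶜ fun i => obj (σ.dom f i)) ⟶ obj (σ.cod f)

/-- The product of the sorts of a context. -/
noncomputable def Str.ctx (M : Str σ) : List σ.Srt → SSet.{0}
  | [] => 𝟙_ _
  | A :: Γ => M.ctx Γ ⊗ M.obj A

noncomputable def Str.var (M : Str σ) : ∀ {Γ A}, Var Γ A → (M.ctx Γ ⟶ M.obj A)
  | _, _, .zero => snd _ _
  | _, _, .succ v => fst _ _ ≫ M.var v

noncomputable def Str.tm (M : Str σ) {Γ : List σ.Srt} : ∀ {A}, Tm σ Γ A → (M.ctx Γ ⟶ M.obj A)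
  | _, .var v => M.var v
  | _, .app f ts => Pi.lift (fun i => M.tm (ts i)) ≫ M.fn f

open Simplicial in
/-- Evaluation of paths at the vertex `i` of `Δ[1]`. -/
noncomputable def endpt (X : SSet.{0}) (i : Fin 2) : (ihom Δ[1]).obj X ⟶ X :=
  lift (SSet.const (SSet.stdSimplex.obj₀Equiv.symm i)) (𝟙 _) ≫ (ihom.ev Δ[1]).app X

theorem prod_left {X : SSet.{0}} (A : Over X) : (prod.functor.obj A).IsLeftAdjoint := by
  let := Over.cartesianMonoidalCategory X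
  let : MonoidalClosed (Over X) :=
    cartesianClosedOfEquiv (overEquivPresheafCostructuredArrow X).symm
  exact ((ihom.adjunction A).ofNatIsoLeft (tensorLeftIsoProd A)).isLeftAdjoint

theorem pull_left {X Y : SSet.{0}} (f : Y ⟶ X) : (Over.pullback f).IsLeftAdjoint := by
  let : ChosenPullbacks SSet.{0} := fun f => ChosenPullbacksAlong.ofHasPullbacksAlong f
  let := ChosenPullbacksAlong.cartesianMonoidalCategoryOver X
  let : MonoidalClosed (Over X) :=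
    cartesianClosedOfEquiv (overEquivPresheafCostructuredArrow X).symm
  let : ChosenPullbacks (Over X) := fun f => ChosenPullbacksAlong.ofHasPullbacksAlong f
  let : BraidedCategory (Over X) := .ofCartesianMonoidalCategory
  exact (((Over.toOverSectionsAdj (Over.mk f)).comp
    (Over.mk f).iteratedSliceEquiv.toAdjunction).ofNatIsoLeft
      (toOverIteratedSliceForwardIsoPullback f ≪≫
        ChosenPullbacksAlong.pullbackIsoOverPullback f)).isLeftAdjoint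

/-- The homotopical interpretation. -/
noncomputable def Str.fm (M : Str σ) : ∀ {Γ}, Fm σ Γ → Over (M.ctx Γ)
  | _, .top => Over.mk (𝟙 _)
  | _, .bot => Over.mk (initial.to _)
  | _, .eq s t => (Over.pullback (lift (M.tm s) (M.tm t))).obj
      (Over.mk (lift (endpt _ 0) (endpt _ 1)))
  | _, .and φ ψ => M.fm φ ⨯ M.fm ψ
  | _, .or φ ψ => M.fm φ ⨿ M.fm ψ
  | _, .imp φ ψ => haveI := prod_left (M.fm φ); (prod.functor.obj (M.fm φ)).rightAdjoint.obj (M.fm ψ)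
  | Γ, .all A φ => haveI := pull_left (fst (M.ctx Γ) (M.obj A))
      (Over.pullback (fst (M.ctx Γ) (M.obj A))).rightAdjoint.obj (M.fm φ)
  | Γ, .ex A φ => (Over.map (fst (M.ctx Γ) (M.obj A))).obj (M.fm φ)

theorem lem_true (M : Str σ) (φ : Fm σ []) : (M.fm (.or φ (.imp φ .bot))).left.Nonempty := by
  by_cases h : (M.fm φ).left.Nonempty
  · exact ⟨(coprod.inl (X := M.fm φ) (Y := M.fm (.imp φ .bot))).left.app _ h.some⟩
  · have := prod_left (M.fm φ)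
    have e := SSet.isInitialOfNotNonempty h
    let u : M.fm φ ⟶ M.fm (.bot : Fm σ []) := Over.homMk (e.to _) (e.hom_ext _ _)
    let v := (Adjunction.ofIsLeftAdjoint (prod.functor.obj (M.fm φ))).homEquiv (Over.mk (𝟙 _)) _
      (prod.fst ≫ u)
    exact ⟨(v ≫ coprod.inr (X := M.fm φ) (Y := M.fm (.imp φ .bot))).left.app _ PUnit.unit⟩

def Env (Γ : List σ.Srt) : Type := ∀ A, Var Γ A → Bool

def Env.cons {Γ : List σ.Srt} {B : σ.Srt} (e : Env Γ) (d : Bool) : Env (B :: Γ)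
  | _, .zero => d
  | _, .succ v => e _ v

def Tm.ev {Γ : List σ.Srt} (e : Env Γ) : ∀ {A}, Tm σ Γ A → Bool
  | _, .var v => e _ v
  | _, .app _ _ => true

def Fm.F : ∀ {Γ : List σ.Srt}, Fm σ Γ → Env Γ → Prop → Prop
  | _, .top, _, _ => True
  | _, .bot, _, _ => False
  | _, .eq s t, e, w => w ∨ s.ev e = t.ev e
  | _, .and φ ψ, e, w => φ.F e w ∧ ψ.F e w
  | _, .or φ ψ, e, w => φ.F e w ∨ ψ.F e w
  | _, .imp φ ψ, e, w => ∀ w' : Prop, (w → w') → φ.F e w' → ψ.F e w'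
  | _, .all _ φ, e, w => ∀ d, φ.F (e.cons d) w
  | _, .ex _ φ, e, w => ∃ d, φ.F (e.cons d) w

theorem ev_sub {Γ Δ : List σ.Srt} (ρ : Sub σ Γ Δ) (e : Env Γ) {A : σ.Srt} (t : Tm σ Δ A) :
    (t.sub ρ).ev e = t.ev fun A v => (ρ A v).ev e := by cases t <;> rfl

theorem F_sub {Δ : List σ.Srt} (φ : Fm σ Δ) : ∀ {Γ : List σ.Srt} (ρ : Sub σ Γ Δ) (e : Env Γ)
    (w : Prop), (φ.sub ρ).F e w ↔ φ.F (fun A v => (ρ A v).ev e) w := by
  have k : ∀ {Γ Δ : List σ.Srt} {B : σ.Srt} (ρ : Sub σ Γ Δ) (e : Env Γ) (d : Bool),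
      (fun A v => (up (B := B) ρ A v).ev (e.cons d)) =
        Env.cons (fun A v => (ρ A v).ev e) d := fun ρ e d => by
    funext A v
    cases v with
    | zero => rfl
    | succ v => exact ev_sub _ _ _
  induction φ <;> intro Γ ρ e w <;> simp only [Fm.sub, Fm.F, ev_sub, *]

theorem F_mono {Γ : List σ.Srt} (φ : Fm σ Γ) : ∀ (e e' : Env Γ) (w w' : Prop), (w → w') →
    (w' ∨ e = e') → φ.F e w → φ.F e' w' := by
  induction φ with
  | top => exact fun _ _ _ _ _ _ h => h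
  | bot => exact fun _ _ _ _ _ _ h => h
  | eq s t => rintro e e' w w' a (b | rfl) h; exacts [Or.inl b, h.imp_left a]
  | and _ _ i j => exact fun e e' w w' a b h => ⟨i e e' w w' a b h.1, j e e' w w' a b h.2⟩
  | or _ _ i j => exact fun e e' w w' a b h => h.imp (i e e' w w' a b) (j e e' w w' a b)
  | imp _ _ i j =>
    exact fun e e' w w' a b h u c d => j e e' u u id (b.imp_left c)
      (h u (c ∘ a) (i e' e u u id (b.imp c Eq.symm) d))
  | all _ _ i => exact fun e e' w w' a b h d => i _ _ w w' a (b.imp_right (· ▸ rfl)) (h d)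
  | ex _ _ i => exact fun e e' w w' a b ⟨d, h⟩ => ⟨d, i _ _ w w' a (b.imp_right (· ▸ rfl)) h⟩

theorem sound {Γ : List σ.Srt} {Φ : List (Fm σ Γ)} {φ : Fm σ Γ} (h : Pf Φ φ) :
    ∀ e w, (∀ ψ ∈ Φ, ψ.F e w) → φ.F e w := by
  have k : ∀ {Γ : List σ.Srt} {B : σ.Srt} (t : Tm σ Γ B) (e : Env Γ),
      (fun A v => (inst t A v).ev e) = e.cons (t.ev e) := fun t e => by
    funext A v
    cases v <;> rfl
  have l : ∀ {Γ : List σ.Srt} {B : σ.Srt} (Φ : List (Fm σ Γ)) (e : Env Γ) d w, (∀ ψ ∈ Φ, ψ.F e w) →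
      ∀ ψ ∈ Φ.map (·.sub (wk (B := B))), ψ.F (e.cons d) w := fun Φ e d w h ψ p => by
    obtain ⟨χ, a, rfl⟩ := List.mem_map.1 p
    exact (F_sub _ _ _ _).2 (h χ a)
  induction h with
  | hyp h => exact fun e w a => a _ h
  | topI => exact fun _ _ _ => trivial
  | botE _ i => exact fun e w a => (i e w a).elim
  | andI _ _ i j => exact fun e w a => ⟨i e w a, j e w a⟩
  | andL _ i => exact fun e w a => (i e w a).1
  | andR _ i => exact fun e w a => (i e w a).2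
  | orL _ i => exact fun e w a => Or.inl (i e w a)
  | orR _ i => exact fun e w a => Or.inr (i e w a)
  | orE _ _ _ i j m =>
    exact fun e w a => (i e w a).elim (fun b => j e w (List.forall_mem_cons.2 ⟨b, a⟩))
      fun b => m e w (List.forall_mem_cons.2 ⟨b, a⟩)
  | impI _ i =>
    exact fun e w a u b c => i e u (List.forall_mem_cons.2
      ⟨c, fun ψ p => F_mono ψ e e w u b (Or.inr rfl) (a ψ p)⟩)
  | impE _ _ i j => exact fun e w a => i e w a w id (j e w a)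
  | allI _ i => exact fun e w a d => i _ w (l _ e d w a)
  | allE t _ i => exact fun e w a => (F_sub _ _ _ _).2 (k t e ▸ i e w a _)
  | exI t _ i => exact fun e w a => ⟨_, k t e ▸ (F_sub _ _ _ _).1 (i e w a)⟩
  | exE _ _ i j =>
    exact fun e w a => (i e w a).elim fun d b =>
      (F_sub _ _ _ _).1 (j _ w (List.forall_mem_cons.2 ⟨b, l _ e d w a⟩))
  | refl t => exact fun _ _ _ => Or.inr rfl
  | @subst _ _ _ _ s t _ _ i j =>
    exact fun e w a => (F_sub _ _ _ _).2 (k t e ▸ F_mono _ _ _ w w id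
      ((i e w a).imp_right (congrArg e.cons)) (k s e ▸ (F_sub _ _ _ _).1 (j e w a)))

theorem result : ∃ (σ : Sig) (φ : Fm σ []), ¬ Pf [] φ ∧ ∀ M : Str σ, (M.fm φ).left.Nonempty := by
  let ψ : Fm ⟨Unit, Empty, Empty.elim, fun f => f.elim, Empty.elim⟩ [] :=
    .all () (.all () (.eq (.var .zero) (.var (.succ .zero))))
  refine ⟨_, .or ψ (.imp ψ .bot), fun h => ?_, fun M => lem_true M ψ⟩
  rcases sound h (fun _ _ => true) False (by simp) with a | a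
  · exact (a true false).elim id Bool.false_ne_true
  · exact a True False.elim fun _ _ => Or.inl trivial

end Pool.Agent.Results.MP_57cfa6_lc.ExcludedMiddle
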